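import Pool.Agent.H75.OM.TA

/-!
# omn NWH: one bit of the output of the generator is replaced by a random bit
-/

set_option autoImplicit false

namespace Pool.Agent.H61.OM

open Finset Pool.Agent.H6.NB Pool.Agent.H70.OQ Pool.Agent.H70.EH Pool.Agent.H70.EI Pool.Agent.H78.XQ
open Pool.Agent.H75.OM

/-- A coordinate which does not matter. -/
theorem nwhFlip {V : Type} [Fintype V] [DecidableEq V] (c : V) (G : Bool → (V → Bool) → ℝ)
    (hG : ∀ b y u, G b (Function.update y c u) = G b y) :
    ∑ y : V → Bool, G (y c) y = ∑ y : V → Bool, (G true y + G false y) / 2 := by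
  have inv : Function.Involutive fun y : V → Bool => Function.update y c (!y c) := by
    intro y
    funext a
    by_cases h : a = c
    · subst h
      simp
    · simp [h]
  have h1 : ∑ y : V → Bool, G (y c) y = ∑ y : V → Bool, G (!y c) y := by
    rw [← Equiv.sum_comp (inv.toPerm _)]
    refine Finset.sum_congr rfl fun y _ => ?_
    rw [Function.Involutive.coe_toPerm]
    rw [hG]
    simp
  have h2 : ∑ y : V → Bool, G (y c) y + ∑ y : V → Bool, G (!y c) y =
      ∑ y : V → Bool, (G true y + G false y) := by
    rw [← Finset.sum_add_distrib]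
    refine Finset.sum_congr rfl fun y _ => ?_
    cases y c <;> simp [add_comm]
  rw [← Finset.sum_div, ← h2, ← h1]
  ring

section

variable {X L : Type} [DecidableEq L]

/-- The variables of the form `(a, k a)` get the values `s a`. -/
def nwhU (k : L → L) (y : X ⊕ L × L → Bool) (s : L → Bool) : X ⊕ L × L → Bool
  | .inl x => y (.inl x)
  | .inr c => if c.2 = k c.1 then s c.1 else y (.inr c)

theorem nwhU_inr (k : L → L) (y : X ⊕ L × L → Bool) (s : L → Bool) (a : L) :
    nwhU k y s (.inr (a, k a)) = s a := by
  simp [nwhU]

theorem nwhAvg [Fintype X] [Fintype L] [DecidableEq X] (k : L → L)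
    (F : (X ⊕ L × L → Bool) → ℝ) :
    mn F = mn fun y => mn fun s : L → Bool => F (nwhU k y s) := by
  have inv : Function.Involutive fun p : (X ⊕ L × L → Bool) × (L → Bool) =>
      (nwhU k p.1 p.2, fun a => p.1 (.inr (a, k a))) := by
    intro p
    refine Prod.ext ?_ ?_
    · funext c
      rcases c with x | ⟨a, u⟩
      · rfl
      · by_cases h : u = k a
        · subst h
          simp [nwhU]
        · simp [nwhU, h]
    · funext a
      simp [nwhU]
  have h1 : ∑ p : (X ⊕ L × L → Bool) × (L → Bool), F (nwhU k p.1 p.2) =
      ∑ p : (X ⊕ L × L → Bool) × (L → Bool), F p.1 := by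
    rw [← Equiv.sum_comp (inv.toPerm _) fun p => F p.1]
    rfl
  rw [Fintype.sum_prod_type, Fintype.sum_prod_type] at h1
  have h2 : ∑ y : X ⊕ L × L → Bool, ∑ _s : L → Bool, F y =
      2 ^ Fintype.card L * ∑ y : X ⊕ L × L → Bool, F y := by
    rw [Finset.mul_sum]
    refine Finset.sum_congr rfl fun y _ => ?_
    rw [Finset.sum_const, nsmul_eq_mul]
    simp
  unfold mn
  rw [← Finset.sum_div]
  simp only [] at h1
  rw [h1, h2]
  field_simp

end

theorem pf_NWH (h1 : T_MNS) (h2 : T_CPS) (h3 : Pool.Agent.H75.OM.T_DNF)
    (h4 : Pool.Agent.H75.OM.T_PAR) (h5 : T_INJ) : T_NWH := by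
  intro l N S d w M X _ _ e f A x hM hw hl hN he hf hx
  set E : ℝ := er S (d + 2) w + 4 * Real.exp (-(2 ^ l * rt w (d + 2) ^ 2 / 16)) with hE
  have hE0 : 0 ≤ E := by
    have : 0 ≤ er S (d + 2) w := by unfold er; positivity
    have := Real.exp_pos (-(2 ^ l * rt w (d + 2) ^ 2 / 16))
    rw [hE]; positivity
  have hS : 1 ≤ S := le_trans Nat.one_le_two_pow hN
  let k : (Fin l → Bool) → Fin l → Bool := fun a => lin M a (e x)
  let h : Bool → (X ⊕ (Fin l → Bool) × (Fin l → Bool) → Bool) → X → Bool := fun b y x' =>
    if x' = x then b else if x' ∈ A then y (.inl x') else gen M (fun c => y (.inr c)) (e x')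
  have key : ∀ b : Bool, |mn fun y : X ⊕ (Fin l → Bool) × (Fin l → Bool) → Bool =>
      sg (gen M (fun c => y (.inr c)) (e x)) * bi (f (h b y))| ≤ E := by
    intro b
    rw [nwhAvg k]
    have hC : ∀ y : X ⊕ (Fin l → Bool) × (Fin l → Bool) → Bool,
        Cl (Fin l → Bool) S (d + 2 + 1) fun s => f (h b (nwhU k y s)) := by
      intro y
      have := h2 X (Fin l → Bool) S 2 (d + 1) f (fun x' s => h b (nwhU k y s) x') hS hf ?_
      · rw [show d + 2 + 1 = 2 + (d + 1) by omega]
        exact this
      · intro x'
        by_cases hx' : x' = x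
        · refine h3 _ ∅ S _ (by simpa using hS) ?_
          intro s s' _
          simp [h, hx']
        · by_cases hA : x' ∈ A
          · refine h3 _ ∅ S _ (by simpa using hS) ?_
            intro s s' _
            simp [h, hx', hA, nwhU]
          · refine h3 _ (univ.filter fun a => lin M a (e x) = lin M a (e x')) S _ ?_ ?_
            · refine le_trans (Nat.pow_le_pow_right (by norm_num) (hM _ _ ?_)) hN
              intro h0
              exact hx' (he h0).symm
            · intro s s' hs
              simp only [h, hx', hA, if_false, gen]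
              congr 1
              funext a
              simp only [nwhU, k]
              by_cases h0 : lin M a (e x') = lin M a (e x)
              · rw [if_pos h0, if_pos h0]
                exact hs a (by simp [h0])
              · rw [if_neg h0, if_neg h0]
    have hP : ∀ y : X ⊕ (Fin l → Bool) × (Fin l → Bool) → Bool,
        |mn fun s : (Fin l → Bool) → Bool =>
          sg (gen M (fun c => nwhU k y s (.inr c)) (e x)) * bi (f (h b (nwhU k y s)))| ≤ E := by
      intro y
      have hp := h4 (Fin l → Bool) S (d + 2) w (fun s => f (h b (nwhU k y s))) hw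
        (by simpa using hl) (hC y)
      have hc : (Fintype.card (Fin l → Bool) : ℝ) = 2 ^ l := by simp
      rw [hc] at hp
      refine le_trans (le_of_eq ?_) hp
      congr 2
      funext s
      congr 2
      unfold gen
      congr 1
      funext a
      exact nwhU_inr k y s a
    have hmn : ∀ G : (X ⊕ (Fin l → Bool) × (Fin l → Bool) → Bool) → ℝ, (∀ y, |G y| ≤ E) →
        |mn G| ≤ E := by
      intro G hG
      unfold mn
      rw [abs_div, abs_of_pos (by positivity :
        (0 : ℝ) < 2 ^ Fintype.card (X ⊕ (Fin l → Bool) × (Fin l → Bool))),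
        div_le_iff₀ (by positivity)]
      refine le_trans (Finset.abs_sum_le_sum_abs _ _) ?_
      refine le_trans (Finset.sum_le_sum fun y _ => hG y) ?_
      rw [Finset.sum_const, nsmul_eq_mul, mul_comm]
      simp
    exact hmn _ hP
  have hM1 : (mn fun y : X ⊕ (Fin l → Bool) × (Fin l → Bool) → Bool => bi (f fun x' =>
      if x' ∈ insert x A then y (.inl x') else gen M (fun c => y (.inr c)) (e x'))) =
      mn fun y => (bi (f (h true y)) + bi (f (h false y))) / 2 := by
    unfold mn
    congr 1
    rw [← nwhFlip (.inl x) fun b y => bi (f (h b y))]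
    · refine Finset.sum_congr rfl fun y _ => ?_
      beta_reduce
      congr 2
      funext x'
      by_cases hx' : x' = x
      · subst hx'
        simp [h]
      · simp [h, hx']
    · intro b y u
      congr 2
      funext x'
      by_cases hx' : x' = x
      · simp [h, hx']
      · simp [h, hx']
  have hM2 : (mn fun y : X ⊕ (Fin l → Bool) × (Fin l → Bool) → Bool => bi (f fun x' =>
      if x' ∈ A then y (.inl x') else gen M (fun c => y (.inr c)) (e x'))) =
      mn fun y => (bi (f (h true y)) + bi (f (h false y))) / 2 +
        sg (gen M (fun c => y (.inr c)) (e x)) *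
          (bi (f (h false y)) - bi (f (h true y))) / 2 := by
    unfold mn
    congr 1
    refine Finset.sum_congr rfl fun y _ => ?_
    beta_reduce
    have h0 : (fun x' => if x' ∈ A then y (.inl x') else gen M (fun c => y (.inr c)) (e x')) =
        h (gen M (fun c => y (.inr c)) (e x)) y := by
      funext x'
      by_cases hx' : x' = x
      · subst hx'
        simp [h, hx]
      · simp [h, hx']
    rw [h0]
    cases gen M (fun c => y (.inr c)) (e x) <;> simp [sg] <;> ring
  rw [hM1, hM2]
  have hlin : (mn fun y : X ⊕ (Fin l → Bool) × (Fin l → Bool) → Bool =>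
        (bi (f (h true y)) + bi (f (h false y))) / 2 +
        sg (gen M (fun c => y (.inr c)) (e x)) *
          (bi (f (h false y)) - bi (f (h true y))) / 2) =
      (mn fun y => (bi (f (h true y)) + bi (f (h false y))) / 2) +
      ((mn fun y => sg (gen M (fun c => y (.inr c)) (e x)) * bi (f (h false y))) -
       (mn fun y => sg (gen M (fun c => y (.inr c)) (e x)) * bi (f (h true y)))) / 2 := by
    unfold mn
    rw [← sub_div, div_div, mul_comm _ (2 : ℝ), ← div_div, ← add_div]
    congr 1
    rw [← Finset.sum_sub_distrib, Finset.sum_div, ← Finset.sum_add_distrib]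
    refine Finset.sum_congr rfl fun y _ => ?_
    ring
  rw [hlin]
  have k1 := abs_le.mp (key true)
  have k2 := abs_le.mp (key false)
  linarith [k1.1, k1.2, k2.1, k2.2]

end Pool.Agent.H61.OM
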